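import Mathlib

/-!
Balleans: if the symmetric `m`-th power `[X]^m` of a ballean `X` is normal for some `m ≥ n²`, then
the hypersymmetric `n`-th power `[X]^{≤ n}` is normal.
-/

namespace Pool.Agent.Results.MP_267911_gt.SymSquareNormal

open Set

universe u

section defs

variable {X : Type u}

/-- The family `𝓔` of entourages is a ballean structure on `X`. -/
structure IsBallean (𝓔 : Set (Set (X × X))) : Prop where
  diag : ∀ e ∈ 𝓔, ∀ x : X, (x, x) ∈ e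
  comp : ∀ e ∈ 𝓔, ∀ f ∈ 𝓔, ∃ d ∈ 𝓔, ∀ x y z : X, (x, y) ∈ e → (z, y) ∈ f → (x, z) ∈ d
  cover : ∀ x y : X, ∃ e ∈ 𝓔, (x, y) ∈ e

/-- `e[A]`. -/
def ball (e : Set (X × X)) (A : Set X) : Set X := {y | ∃ a ∈ A, (a, y) ∈ e}

/-- Bounded sets. -/
def Bdd (𝓔 : Set (Set (X × X))) (B : Set X) : Prop := ∃ e ∈ 𝓔, ∃ x : X, B ⊆ ball e {x}

/-- Asymptotically disjoint sets. -/
def AsDisj (𝓔 : Set (Set (X × X))) (A B : Set X) : Prop :=
  ∀ e ∈ 𝓔, Bdd 𝓔 (ball e A ∩ ball e B)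

/-- `U` is an asymptotic neighbourhood of `A`. -/
def AsNbhd (𝓔 : Set (Set (X × X))) (A U : Set X) : Prop := ∀ e ∈ 𝓔, Bdd 𝓔 (ball e A \ U)

/-- Normality. -/
def Normal (𝓔 : Set (Set (X × X))) : Prop :=
  ∀ A B : Set X, AsDisj 𝓔 A B → ∃ U V : Set X, Disjoint U V ∧ AsNbhd 𝓔 A U ∧ AsNbhd 𝓔 B V

/-- The entourages of `X^n`. -/
def powE (𝓔 : Set (Set (X × X))) (n : ℕ) : Set (Set ((Fin n → X) × (Fin n → X))) :=
  {P | ∃ e : Fin n → Set (X × X), (∀ i, e i ∈ 𝓔) ∧ P = {p | ∀ i, (p.1 i, p.2 i) ∈ e i}}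

variable (X) in
/-- Two tuples are equivalent if they differ by a permutation of the coordinates. -/
def permSetoid (n : ℕ) : Setoid (Fin n → X) where
  r x y := ∃ σ : Equiv.Perm (Fin n), y = x ∘ σ
  iseqv := by
    refine ⟨fun x => ⟨1, by ext i; simp⟩, ?_, ?_⟩
    · rintro x y ⟨σ, rfl⟩
      exact ⟨σ⁻¹, by ext i; simp⟩
    · rintro x y z ⟨σ, rfl⟩ ⟨τ, rfl⟩
      exact ⟨σ * τ, by ext i; simp⟩

variable (X) in
/-- The underlying set of the symmetric power `[X]^n`. -/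
abbrev SymPow (n : ℕ) : Type u := Quotient (permSetoid X n)

/-- The class of a tuple in the symmetric power. -/
def cls {n : ℕ} (x : Fin n → X) : SymPow X n := Quotient.mk (permSetoid X n) x

/-- The entourages of the symmetric power `[X]^n`. -/
def symE (𝓔 : Set (Set (X × X))) (n : ℕ) : Set (Set (SymPow X n × SymPow X n)) :=
  {Q | ∃ P ∈ powE 𝓔 n, Q = (fun p => (cls p.1, cls p.2)) '' P}

/-- The underlying set of the hyperballean: the nonempty bounded sets. -/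
abbrev Hyper (𝓔 : Set (Set (X × X))) : Type u := {B : Set X // Bdd 𝓔 B ∧ B.Nonempty}

/-- The entourages of the hyperballean. -/
def hyperE (𝓔 : Set (Set (X × X))) : Set (Set (Hyper 𝓔 × Hyper 𝓔)) :=
  {Q | ∃ e ∈ 𝓔, Q = {p | p.1.1 ⊆ ball e p.2.1 ∧ p.2.1 ⊆ ball e p.1.1}}

/-- The subballean structure on a subset. -/
def subE {Z : Type u} (𝓕 : Set (Set (Z × Z))) (Y : Set Z) : Set (Set (Y × Y)) :=
  {Q | ∃ e ∈ 𝓕, Q = {p | ((p.1 : Z), (p.2 : Z)) ∈ e}}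

/-- The sets with at most `n` elements in the hyperballean. -/
def atMost (𝓔 : Set (Set (X × X))) (n : ℕ) : Set (Hyper 𝓔) := {A | A.1.encard ≤ n}

/-- The entourages of the hypersymmetric power `[X]^{≤ n}`. -/
def hypersymE (𝓔 : Set (Set (X × X))) (n : ℕ) : Set (Set (atMost 𝓔 n × atMost 𝓔 n)) :=
  subE (hyperE 𝓔) (atMost 𝓔 n)

end defs

section aux

variable {X : Type u} {𝓔 : Set (Set (X × X))}

theorem IsBallean.inv (h : IsBallean 𝓔) {e : Set (X × X)} (he : e ∈ 𝓔) :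
    ∃ d ∈ 𝓔, ∀ x y : X, (x, y) ∈ e → (y, x) ∈ d := by
  obtain ⟨d, hd, hd'⟩ := h.comp e he e he
  exact ⟨d, hd, fun x y hxy => hd' y y x (h.diag e he y) hxy⟩

theorem IsBallean.trans (h : IsBallean 𝓔) {e f : Set (X × X)} (he : e ∈ 𝓔) (hf : f ∈ 𝓔) :
    ∃ d ∈ 𝓔, ∀ x y z : X, (x, y) ∈ e → (y, z) ∈ f → (x, z) ∈ d := by
  obtain ⟨f', hf', hf''⟩ := h.inv hf
  obtain ⟨d, hd, hd'⟩ := h.comp e he f' hf'
  exact ⟨d, hd, fun x y z hxy hyz => hd' x y z hxy (hf'' _ _ hyz)⟩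

theorem IsBallean.dir (h : IsBallean 𝓔) {e f : Set (X × X)} (he : e ∈ 𝓔) (hf : f ∈ 𝓔) :
    ∃ d ∈ 𝓔, e ⊆ d ∧ f ⊆ d := by
  obtain ⟨d, hd, hd'⟩ := h.trans he hf
  exact ⟨d, hd, fun p hp => hd' p.1 p.2 p.2 hp (h.diag f hf _),
    fun p hp => hd' p.1 p.1 p.2 (h.diag e he _) hp⟩

theorem IsBallean.symm (h : IsBallean 𝓔) {e : Set (X × X)} (he : e ∈ 𝓔) :
    ∃ d ∈ 𝓔, ∀ x y : X, (x, y) ∈ e → (x, y) ∈ d ∧ (y, x) ∈ d := by
  obtain ⟨f, hf, hf'⟩ := h.inv he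
  obtain ⟨d, hd, h1, h2⟩ := h.dir he hf
  exact ⟨d, hd, fun x y hxy => ⟨h1 hxy, h2 (hf' x y hxy)⟩⟩

theorem IsBallean.fin (h : IsBallean 𝓔) {m : ℕ} (hm : 0 < m) (e : Fin m → Set (X × X))
    (he : ∀ i, e i ∈ 𝓔) :
    ∃ d ∈ 𝓔, ∀ i, ∀ x y : X, (x, y) ∈ e i → (x, y) ∈ d ∧ (y, x) ∈ d := by
  classical
  have key : ∀ s : Finset (Fin m), ∃ d ∈ 𝓔, ∀ i ∈ s, ∀ x y : X, (x, y) ∈ e i →
      (x, y) ∈ d ∧ (y, x) ∈ d := by
    intro s
    induction s using Finset.induction_on with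
    | empty => exact ⟨e ⟨0, hm⟩, he _, fun i hi => by simp at hi⟩
    | insert a s _ ih =>
      obtain ⟨d, hd, hd'⟩ := ih
      obtain ⟨f, hf, hf'⟩ := h.symm (he a)
      obtain ⟨g, hg, h1, h2⟩ := h.dir hd hf
      refine ⟨g, hg, fun i hi x y hxy => ?_⟩
      rcases Finset.mem_insert.1 hi with rfl | hi
      · exact ⟨h2 (hf' x y hxy).1, h2 (hf' x y hxy).2⟩
      · exact ⟨h1 (hd' i hi x y hxy).1, h1 (hd' i hi x y hxy).2⟩
  obtain ⟨d, hd, hd'⟩ := key Finset.univ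
  exact ⟨d, hd, fun i => hd' i (Finset.mem_univ i)⟩

theorem IsBallean.fin_pt (h : IsBallean 𝓔) {m : ℕ} (hm : 0 < m) (w : Fin m → X) (x : X) :
    ∃ d ∈ 𝓔, ∀ i, (x, w i) ∈ d := by
  choose e he hx using fun i => h.cover x (w i)
  obtain ⟨d, hd, hd'⟩ := h.fin hm e he
  exact ⟨d, hd, fun i => (hd' i _ _ (hx i)).1⟩

theorem range_eq_of_cls {m : ℕ} {s t : Fin m → X} (h : cls s = cls t) : range s = range t := by
  obtain ⟨σ, hσ⟩ := Quotient.exact h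
  rw [hσ, σ.surjective.range_comp]

theorem exists_surj (α β : Type*) [Finite α] [Finite β] [Nonempty β]
    (h : Nat.card β ≤ Nat.card α) : ∃ f : α → β, Function.Surjective f := by
  classical
  have := Fintype.ofFinite α
  have := Fintype.ofFinite β
  rw [Nat.card_eq_fintype_card, Nat.card_eq_fintype_card] at h
  obtain ⟨g⟩ := Function.Embedding.nonempty_of_card_le h
  exact ⟨Function.invFun g, Function.invFun_surjective g.injective⟩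

/-- Every value of the tuple is taken at least `n` times. -/
def Rich {m : ℕ} (n : ℕ) (s : Fin m → X) : Prop := ∀ a ∈ range s, n ≤ Nat.card {i // s i = a}

theorem exists_rich {n m : ℕ} (hn : 0 < n) (hm : n * n ≤ m) (S : Set X) (hS : S.Nonempty)
    (hS' : S.encard ≤ n) : ∃ s : Fin m → X, range s = S ∧ Rich n s := by
  classical
  obtain ⟨hfin, hcard⟩ := Set.encard_le_coe_iff_finite_ncard_le.1 hS'
  have : Finite S := hfin
  have : Nonempty S := hS.to_subtype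
  obtain ⟨g, hg⟩ := exists_surj (Fin n) S (by simpa [Nat.card_fin] using hcard)
  let s : Fin m → X := fun i => if h : (i : ℕ) / n < n then g ⟨i / n, h⟩ else g ⟨0, hn⟩
  have hlt : ∀ (j r : Fin n), (j : ℕ) * n + r < m := by
    intro j r
    have h1 : (j : ℕ) * n + r < (j + 1) * n := by
      rw [add_mul, one_mul]
      exact Nat.add_lt_add_left r.2 _
    have h2 : ((j : ℕ) + 1) * n ≤ n * n := Nat.mul_le_mul_right n j.2
    omega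
  have hval : ∀ (j r : Fin n), s ⟨(j : ℕ) * n + r, hlt j r⟩ = g j := by
    intro j r
    have h1 : ((j : ℕ) * n + r) / n = j := by
      rw [Nat.mul_comm, Nat.mul_add_div hn, Nat.div_eq_of_lt r.2, add_zero]
    have h2 : ((j : ℕ) * n + r) / n < n := by rw [h1]; exact j.2
    change (if h : ((j : ℕ) * n + r) / n < n then ((g ⟨((j : ℕ) * n + r) / n, h⟩ : S) : X)
      else g ⟨0, hn⟩) = g j
    rw [dif_pos h2]
    congr 2
    exact Fin.ext h1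
  have hr : range s = S := by
    apply Subset.antisymm
    · rintro _ ⟨i, rfl⟩
      change (if h : (i : ℕ) / n < n then ((g ⟨i / n, h⟩ : S) : X) else g ⟨0, hn⟩) ∈ S
      split_ifs
      · exact (g _).2
      · exact (g _).2
    · intro a ha
      obtain ⟨j, hj⟩ := hg ⟨a, ha⟩
      exact ⟨_, (hval j ⟨0, hn⟩).trans (by rw [hj])⟩
  refine ⟨s, hr, fun a ha => ?_⟩
  rw [hr] at ha
  obtain ⟨j, hj⟩ := hg ⟨a, ha⟩
  have hinj : Function.Injective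
      (fun r : Fin n => (⟨⟨(j : ℕ) * n + r, hlt j r⟩, (hval j r).trans (by rw [hj])⟩ :
        {i // s i = a})) := by
    intro r r' hrr
    have h3 : (j : ℕ) * n + r = (j : ℕ) * n + r' := congrArg Fin.val (congrArg Subtype.val hrr)
    exact Fin.ext (by omega)
  simpa [Nat.card_fin] using Nat.card_le_card_of_injective _ hinj

/-- The tuples whose set of values belongs to `A`. -/
def lift {n : ℕ} (m : ℕ) (A : Set (atMost 𝓔 n)) : Set (SymPow X m) :=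
  {z | ∃ s : Fin m → X, cls s = z ∧ ∃ S ∈ A, range s = S.1.1}

theorem lift_asDisj (h : IsBallean 𝓔) {n m : ℕ} (hm : 0 < m) {A B : Set (atMost 𝓔 n)}
    (hAB : AsDisj (hypersymE 𝓔 n) A B) : AsDisj (symE 𝓔 m) (lift m A) (lift m B) := by
  rintro _ ⟨_, ⟨e, he, rfl⟩, rfl⟩
  obtain ⟨E, hE, hE'⟩ := h.fin hm e he
  obtain ⟨F, hF, hF'⟩ := h.trans hE hE
  obtain ⟨_, ⟨_, ⟨G, hG, rfl⟩, rfl⟩, C, hC⟩ := hAB _ ⟨_, ⟨F, hF, rfl⟩, rfl⟩
  obtain ⟨H, hH, x0, hx0⟩ := C.1.2.1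
  obtain ⟨K0, hK0, hK0'⟩ := h.trans hH hG
  obtain ⟨K, hK, hK'⟩ := h.trans hK0 hE
  refine ⟨_, ⟨_, ⟨fun _ => K, fun _ => hK, rfl⟩, rfl⟩, cls fun _ => x0, ?_⟩
  rintro z ⟨⟨a, ⟨s, hs, S, hS, hsS⟩, p, hp, hpz⟩, ⟨b, ⟨t, ht, T, hT, htT⟩, p', hp', hpz'⟩⟩
  obtain ⟨h1, h2⟩ := Prod.mk.inj hpz
  obtain ⟨h3, h4⟩ := Prod.mk.inj hpz'
  have r1 : range p.1 = S.1.1 := by rw [← hsS]; exact range_eq_of_cls (h1.trans hs.symm)
  have r2 : range p'.1 = T.1.1 := by rw [← htT]; exact range_eq_of_cls (h3.trans ht.symm)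
  have r3 : range p.2 = range p'.2 := range_eq_of_cls (h2.trans h4.symm)
  have c1 : S.1.1 ⊆ ball F T.1.1 := by
    rw [← r1]
    rintro _ ⟨i, rfl⟩
    obtain ⟨j, hj⟩ : p.2 i ∈ range p'.2 := r3 ▸ mem_range_self i
    refine ⟨p'.1 j, r2 ▸ mem_range_self j, hF' _ (p'.2 j) _ (hE' j _ _ (hp' j)).1 ?_⟩
    rw [hj]
    exact (hE' i _ _ (hp i)).2
  have c2 : T.1.1 ⊆ ball F S.1.1 := by
    rw [← r2]
    rintro _ ⟨j, rfl⟩
    obtain ⟨i, hi⟩ : p'.2 j ∈ range p.2 := r3 ▸ mem_range_self j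
    refine ⟨p.1 i, r1 ▸ mem_range_self i, hF' _ (p.2 i) _ (hE' i _ _ (hp i)).1 ?_⟩
    rw [hi]
    exact (hE' j _ _ (hp' j)).2
  have c3 : S ∈ ball {p : atMost 𝓔 n × atMost 𝓔 n | ((p.1 : Hyper 𝓔), (p.2 : Hyper 𝓔)) ∈
      {p : Hyper 𝓔 × Hyper 𝓔 | p.1.1 ⊆ ball G p.2.1 ∧ p.2.1 ⊆ ball G p.1.1}} {C} := by
    apply hC
    exact ⟨⟨S, hS, fun x hx => ⟨x, hx, h.diag F hF x⟩, fun x hx => ⟨x, hx, h.diag F hF x⟩⟩,
      ⟨T, hT, c2, c1⟩⟩
  obtain ⟨C', hC', hCS⟩ := c3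
  rw [mem_singleton_iff] at hC'
  subst hC'
  refine ⟨_, rfl, (fun _ => x0, p.2), fun i => ?_, Prod.ext rfl h2⟩
  obtain ⟨c, hc, hc'⟩ := hCS.2 (r1 ▸ mem_range_self i : p.1 i ∈ S.1.1)
  obtain ⟨_, rfl, hc''⟩ := hx0 hc
  exact hK' _ _ _ (hK0' _ _ _ hc'' hc') (hE' i _ _ (hp i)).1

theorem lift_asNbhd (h : IsBallean 𝓔) {n m : ℕ} (hn : 0 < n) (hm : 0 < m)
    {A : Set (atMost 𝓔 n)} {U : Set (SymPow X m)} (hU : AsNbhd (symE 𝓔 m) (lift m A) U) :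
    AsNbhd (hypersymE 𝓔 n) A
      {S | ∀ s : Fin m → X, range s = S.1.1 → Rich n s → cls s ∈ U} := by
  classical
  rintro _ ⟨_, ⟨e, he, rfl⟩, rfl⟩
  obtain ⟨F, hF, hF'⟩ := h.symm he
  obtain ⟨_, ⟨_, ⟨k, hk, rfl⟩, rfl⟩, z0, hz0⟩ := hU _ ⟨_, ⟨fun _ => F, fun _ => hF, rfl⟩, rfl⟩
  obtain ⟨w, rfl⟩ : ∃ w, cls w = z0 := Quotient.exists_rep z0
  obtain ⟨K, hK, hK'⟩ := h.fin hm k hk
  obtain ⟨H, hH, hH'⟩ := h.fin_pt hm w (w ⟨0, hm⟩)
  obtain ⟨L0, hL0, hL0'⟩ := h.trans hH hK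
  obtain ⟨L, hL, hL'⟩ := h.symm hL0
  refine ⟨_, ⟨_, ⟨L, hL, rfl⟩, rfl⟩, ⟨⟨{w ⟨0, hm⟩}, ⟨L, hL, w ⟨0, hm⟩, ?_⟩,
    singleton_nonempty _⟩, ?_⟩, ?_⟩
  · rintro _ rfl
    exact ⟨_, rfl, h.diag L hL _⟩
  · change encard {w ⟨0, hm⟩} ≤ n
    rw [encard_singleton]
    exact_mod_cast hn
  rintro S ⟨⟨T, hT, hTS, hST⟩, hSU⟩
  simp only [mem_ofPred_eq, not_forall] at hSU
  obtain ⟨s, hs, hrich, hsU⟩ := hSU
  obtain ⟨hTfin, hTcard⟩ := Set.encard_le_coe_iff_finite_ncard_le.1 T.2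
  have hsurj : ∀ a : S.1.1, ∃ f : {i // s i = a} → {b : X | b ∈ T.1.1 ∧ (b, (a : X)) ∈ F},
      Function.Surjective f := by
    intro a
    have hfin : {b : X | b ∈ T.1.1 ∧ (b, (a : X)) ∈ F}.Finite := hTfin.subset fun b hb => hb.1
    have : Finite {b : X | b ∈ T.1.1 ∧ (b, (a : X)) ∈ F} := hfin
    have : Nonempty {b : X | b ∈ T.1.1 ∧ (b, (a : X)) ∈ F} := by
      obtain ⟨b, hb, hba⟩ := hST a.2
      exact ⟨b, hb, (hF' _ _ hba).1⟩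
    apply exists_surj
    have h1 : Nat.card {b : X | b ∈ T.1.1 ∧ (b, (a : X)) ∈ F} ≤ n :=
      (Set.ncard_le_ncard (fun b hb => hb.1) hTfin).trans hTcard
    exact h1.trans (hrich a (by rw [hs]; exact a.2))
  choose f hf using hsurj
  let t : Fin m → X := fun i => f ⟨s i, hs ▸ mem_range_self i⟩ ⟨i, rfl⟩
  have ht : ∀ i, t i ∈ T.1.1 ∧ (t i, s i) ∈ F := fun i =>
    (f ⟨s i, hs ▸ mem_range_self i⟩ ⟨i, rfl⟩).2
  have htr : range t = T.1.1 := by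
    apply Subset.antisymm
    · rintro _ ⟨i, rfl⟩
      exact (ht i).1
    · intro b hb
      obtain ⟨a, ha, hab⟩ := hTS hb
      obtain ⟨⟨i, hi⟩, hfi⟩ := hf ⟨a, ha⟩ ⟨b, hb, (hF' _ _ hab).2⟩
      change s i = a at hi
      subst hi
      exact ⟨i, congrArg Subtype.val hfi⟩
  have hmem : cls s ∈ ball ((fun p : (Fin m → X) × (Fin m → X) => (cls p.1, cls p.2)) ''
      {p | ∀ i, (p.1 i, p.2 i) ∈ k i}) {cls w} := by
    apply hz0
    exact ⟨⟨cls t, ⟨t, rfl, T, hT, htr⟩, (t, s), fun i => (ht i).2, rfl⟩, hsU⟩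
  obtain ⟨_, rfl, p, hp, hpz⟩ := hmem
  obtain ⟨h1, h2⟩ := Prod.mk.inj hpz
  have r1 := range_eq_of_cls h1
  have r2 := range_eq_of_cls h2
  have hL1 : ∀ a ∈ S.1.1, (w ⟨0, hm⟩, a) ∈ L0 := by
    intro a ha
    rw [← hs, ← r2] at ha
    obtain ⟨i, rfl⟩ := ha
    obtain ⟨j, hj⟩ : p.1 i ∈ range w := r1 ▸ mem_range_self i
    have h5 := (hK' i _ _ (hp i)).1
    rw [← hj] at h5
    exact hL0' _ _ _ (hH' j) h5
  refine ⟨_, rfl, ?_, ?_⟩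
  · rintro _ rfl
    obtain ⟨a, ha⟩ := S.1.2.2
    exact ⟨a, ha, (hL' _ _ (hL1 a ha)).2⟩
  · intro a ha
    exact ⟨_, rfl, (hL' _ _ (hL1 a ha)).1⟩

end aux

/-- If for some `m ≥ n²` the symmetric power `[X]^m` of a ballean is normal, then the
hypersymmetric power `[X]^{≤ n}` is normal. -/
theorem result (X : Type u) (𝓔 : Set (Set (X × X))) (h : IsBallean 𝓔) (n m : ℕ) (hn : 1 ≤ n)
    (hm : n * n ≤ m) (hN : Normal (symE 𝓔 m)) : Normal (hypersymE 𝓔 n) := by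
  have hm0 : 0 < m := lt_of_lt_of_le (Nat.mul_pos hn hn) hm
  intro A B hAB
  obtain ⟨U, V, hUV, hU, hV⟩ := hN _ _ (lift_asDisj h hm0 hAB)
  refine ⟨_, _, ?_, lift_asNbhd h hn hm0 hU, lift_asNbhd h hn hm0 hV⟩
  rw [Set.disjoint_left]
  intro S hSU hSV
  obtain ⟨s, hs, hrich⟩ := exists_rich hn hm S.1.1 S.1.2.2 S.2
  exact Set.disjoint_left.1 hUV (hSU s hs hrich) (hSV s hs hrich)

end Pool.Agent.Results.MP_267911_gt.SymSquareNormal
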